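import Pool.Agent.U797.NL.Spec

set_option autoImplicit false

/-!
# Package POT of project NL (helper689): greedy choice of vertices with a logarithmic potential
-/

namespace Pool.Agent.U689.NL

open Finset
open scoped Classical
open Pool.Agent.U797.LV (nb mem_nb)
open Pool.Agent.U797.NL

section

variable {V : Type} [Fintype V] (G : SimpleGraph V) (η : ℝ) (L : V → Finset V) (Z : Finset V)

/-- the part of `L y` which is not covered -/
noncomputable def rem (U : Finset V) (y : V) : Finset V := L y \ U.biUnion (nb G)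

/-- the active vertices -/
noncomputable def act (U : Finset V) : Finset V :=
  Z.filter (fun y => η * ((L y).card : ℝ) < ((rem G L U y).card : ℝ))

/-- the term of `y` in the potential -/
noncomputable def trm (U : Finset V) (y : V) : ℝ :=
  1 + Real.log (((rem G L U y).card : ℝ) / (η * ((L y).card : ℝ)))

/-- the potential -/
noncomputable def Psi (U : Finset V) : ℝ := ∑ y ∈ act G η L Z U, trm G η L U y

theorem rem_le (U : Finset V) (y : V) : ((rem G L U y).card : ℝ) ≤ ((L y).card : ℝ) := by
  unfold rem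
  exact_mod_cast card_le_card sdiff_subset

variable {η}

theorem pos_of (hη : 0 < η) {U : Finset V} {y : V}
    (h : η * ((L y).card : ℝ) < ((rem G L U y).card : ℝ)) :
    0 < ((L y).card : ℝ) ∧ 0 < ((rem G L U y).card : ℝ) := by
  have h1 : (0 : ℝ) ≤ η * ((L y).card : ℝ) := by positivity
  have h2 : 0 < ((rem G L U y).card : ℝ) := lt_of_le_of_lt h1 h
  exact ⟨h2.trans_le (rem_le G L U y), h2⟩

theorem one_le_trm (hη : 0 < η) {U : Finset V} {y : V}
    (h : η * ((L y).card : ℝ) < ((rem G L U y).card : ℝ)) : 1 ≤ trm G η L U y := by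
  obtain ⟨h1, h2⟩ := pos_of G L hη h
  unfold trm
  have h3 : 0 ≤ Real.log (((rem G L U y).card : ℝ) / (η * ((L y).card : ℝ))) := by
    apply Real.log_nonneg
    rw [le_div_iff₀ (by positivity)]
    linarith
  linarith

theorem card_act_le (hη : 0 < η) (U : Finset V) :
    ((act G η L Z U).card : ℝ) ≤ Psi G η L Z U := by
  unfold Psi
  calc ((act G η L Z U).card : ℝ) = ∑ y ∈ act G η L Z U, (1 : ℝ) := by simp
    _ ≤ _ := sum_le_sum fun y hy => one_le_trm G L hη (mem_filter.1 hy).2

theorem rem_insert (U : Finset V) (u y : V) :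
    rem G L (insert u U) y = rem G L U y \ nb G u := by
  unfold rem
  rw [biUnion_insert, union_comm, sdiff_sdiff_left]
  rfl

theorem step (hR : S_R) {i : ℕ} {b B β lam : ℝ} {v : V} (hb : 0 < b) (hB : 0 < B) (hβ : 0 < β)
    (hη : 0 < η) (hlam : 0 < lam) (hbB : b ≤ η * B) (hZ : Z ⊆ nb G v)
    (hL : ∀ y ∈ Z, Rich G b i B y (L y))
    (hno : ∀ C ⊆ Z, C.Nonempty → ¬ Rich G b (i + 1) β v C) (U : Finset V)
    (hU : lam * (Z.card : ℝ) < ((act G η L Z U).card : ℝ)) :
    ∃ u, Psi G η L Z (insert u U) ≤ Psi G η L Z U - lam * (Z.card : ℝ) / β := by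
  obtain ⟨hR1, hR2, -, -⟩ := hR V G b hb
  have hAZ : act G η L Z U ⊆ Z := filter_subset _ _
  have hA0 : (act G η L Z U).Nonempty := by
    rw [← card_pos]
    have h1 : (0 : ℝ) ≤ lam * (Z.card : ℝ) := by positivity
    exact_mod_cast lt_of_le_of_lt h1 hU
  have hex : ∃ u, ((act G η L Z U).card : ℝ) / β <
      ∑ y ∈ act G η L Z U, ((rem G L U y ∩ nb G u).card : ℝ) / ((rem G L U y).card : ℝ) := by
    by_contra hcon
    push Not at hcon
    apply hno _ hAZ hA0
    refine ⟨hAZ.trans hZ, rem G L U, fun y hy => ?_, hcon⟩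
    have hy2 := (mem_filter.1 hy).2
    obtain ⟨h1, h2⟩ := pos_of G L hη hy2
    refine ⟨card_pos.1 (by exact_mod_cast h2), ?_⟩
    exact hR1 i (η * B) b y _ hb hbB
      (hR2 i B η y (L y) (rem G L U y) hB hη sdiff_subset hy2.le (hL y (hAZ hy)))
  obtain ⟨u, hu⟩ := hex
  refine ⟨u, ?_⟩
  have hcard : ∀ y, ((rem G L (insert u U) y).card : ℝ) =
      ((rem G L U y).card : ℝ) - ((rem G L U y ∩ nb G u).card : ℝ) := by
    intro y
    rw [rem_insert]
    have := card_sdiff_add_card_inter (rem G L U y) (nb G u)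
    have h2 : (((rem G L U y \ nb G u).card : ℕ) : ℝ) + ((rem G L U y ∩ nb G u).card : ℝ) =
      ((rem G L U y).card : ℝ) := by exact_mod_cast this
    linarith
  have hsub : act G η L Z (insert u U) ⊆ act G η L Z U := by
    intro y hy
    unfold act at hy ⊢
    rw [mem_filter] at hy ⊢
    refine ⟨hy.1, hy.2.trans_le ?_⟩
    rw [hcard]
    have : (0 : ℝ) ≤ ((rem G L U y ∩ nb G u).card : ℝ) := by positivity
    linarith
  have key : Psi G η L Z (insert u U) ≤ ∑ y ∈ act G η L Z U,
      (trm G η L U y - ((rem G L U y ∩ nb G u).card : ℝ) / ((rem G L U y).card : ℝ)) := by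
    unfold Psi
    rw [← sum_filter_add_sum_filter_not (act G η L Z U) (fun y => y ∈ act G η L Z (insert u U))
      (fun y => trm G η L U y - ((rem G L U y ∩ nb G u).card : ℝ) / ((rem G L U y).card : ℝ))]
    have e1 : (act G η L Z U).filter (fun y => y ∈ act G η L Z (insert u U)) =
        act G η L Z (insert u U) := by
      rw [filter_mem_eq_inter]
      exact inter_eq_right.2 hsub
    rw [e1]
    have h1 : ∑ y ∈ act G η L Z (insert u U), trm G η L (insert u U) y ≤
        ∑ y ∈ act G η L Z (insert u U),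
          (trm G η L U y - ((rem G L U y ∩ nb G u).card : ℝ) / ((rem G L U y).card : ℝ)) := by
      refine sum_le_sum fun y hy => ?_
      have hy' := (mem_filter.1 hy).2
      have hy2 := (mem_filter.1 (hsub hy)).2
      obtain ⟨g1, g2⟩ := pos_of G L hη hy'
      obtain ⟨-, g3⟩ := pos_of G L hη hy2
      have g4 := Real.one_sub_inv_le_log_of_pos (div_pos g3 g2)
      have g5 : (((rem G L U y).card : ℝ) / ((rem G L (insert u U) y).card : ℝ))⁻¹ =
          1 - ((rem G L U y ∩ nb G u).card : ℝ) / ((rem G L U y).card : ℝ) := by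
        rw [inv_div, hcard]
        field_simp
      have g6 : Real.log (((rem G L U y).card : ℝ) / ((rem G L (insert u U) y).card : ℝ)) =
          trm G η L U y - trm G η L (insert u U) y := by
        have hx : η * ((L y).card : ℝ) ≠ 0 := (mul_pos hη g1).ne'
        unfold trm
        rw [Real.log_div g3.ne' g2.ne', Real.log_div g3.ne' hx, Real.log_div g2.ne' hx]
        ring
      rw [g5, g6] at g4
      linarith
    have h2 : 0 ≤ ∑ y ∈ (act G η L Z U).filter (fun y => ¬ y ∈ act G η L Z (insert u U)),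
        (trm G η L U y - ((rem G L U y ∩ nb G u).card : ℝ) / ((rem G L U y).card : ℝ)) := by
      refine sum_nonneg fun y hy => ?_
      have hy2 := (mem_filter.1 (mem_filter.1 hy).1).2
      obtain ⟨-, g3⟩ := pos_of G L hη hy2
      have g4 := one_le_trm G L hη hy2
      have g5 : ((rem G L U y ∩ nb G u).card : ℝ) / ((rem G L U y).card : ℝ) ≤ 1 := by
        rw [div_le_one g3]
        exact_mod_cast card_le_card inter_subset_left
      linarith
    linarith
  rw [sum_sub_distrib] at key
  have h1 : lam * (Z.card : ℝ) / β ≤ ((act G η L Z U).card : ℝ) / β := by gcongr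
  have e : Psi G η L Z U = ∑ y ∈ act G η L Z U, trm G η L U y := rfl
  rw [e]
  linarith

theorem psi_empty (hη : 0 < η) (hη1 : η ≤ 1) :
    Psi G η L Z ∅ ≤ (Z.card : ℝ) * (1 + Real.log (1 / η)) := by
  have hlog : 0 ≤ Real.log (1 / η) := Real.log_nonneg (by rw [le_div_iff₀ hη]; linarith)
  have h1 : Psi G η L Z ∅ = ((act G η L Z ∅).card : ℝ) * (1 + Real.log (1 / η)) := by
    unfold Psi
    rw [← nsmul_eq_mul, ← sum_const]
    refine sum_congr rfl fun y hy => ?_
    obtain ⟨g1, g2⟩ := pos_of G L hη (mem_filter.1 hy).2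
    have e : rem G L ∅ y = L y := by unfold rem; simp
    unfold trm
    rw [e]
    congr 2
    field_simp
  rw [h1]
  have h2 : ((act G η L Z ∅).card : ℝ) ≤ (Z.card : ℝ) := by
    exact_mod_cast card_le_card (filter_subset _ _)
  gcongr

end

/-- PACKAGE POT -/
theorem t_POT : S_R → S_POT := by
  intro hR V _ G i T b B β η lam v L Z hb hB hβ hη hη1 hlam hbB hZ hL hno hT
  have key : ∀ j : ℕ, (∃ U : Finset V, U.card ≤ j ∧
      ((act G η L Z U).card : ℝ) ≤ lam * (Z.card : ℝ)) ∨
      ∃ U : Finset V, U.card ≤ j ∧ Psi G η L Z U ≤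
        (Z.card : ℝ) * (1 + Real.log (1 / η)) - j * (lam * (Z.card : ℝ) / β) := by
    intro j
    induction j with
    | zero =>
      right
      refine ⟨∅, by simp, ?_⟩
      have := psi_empty G L Z hη hη1
      simpa using this
    | succ j ih =>
      rcases ih with ⟨U, h1, h2⟩ | ⟨U, h1, h2⟩
      · exact Or.inl ⟨U, by omega, h2⟩
      · by_cases h3 : ((act G η L Z U).card : ℝ) ≤ lam * (Z.card : ℝ)
        · exact Or.inl ⟨U, by omega, h3⟩
        · push Not at h3
          obtain ⟨u, hu⟩ := step G L Z hR hb hB hβ hη hlam hbB hZ hL hno U h3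
          refine Or.inr ⟨insert u U, (card_insert_le _ _).trans (by omega), ?_⟩
          push_cast
          linarith
  have hfin : ∃ U : Finset V, U.card ≤ T ∧
      ((act G η L Z U).card : ℝ) ≤ lam * (Z.card : ℝ) := by
    rcases key T with h | ⟨U, h1, h2⟩
    · exact h
    · refine ⟨U, h1, ?_⟩
      have h3 := card_act_le G L Z hη U
      have h4 : (Z.card : ℝ) * (1 + Real.log (1 / η)) ≤ T * (lam * (Z.card : ℝ) / β) := by
        have h5 : 1 + Real.log (1 / η) ≤ lam * T / β := by
          rw [le_div_iff₀ hβ]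
          linarith
        calc (Z.card : ℝ) * (1 + Real.log (1 / η)) ≤ (Z.card : ℝ) * (lam * T / β) := by gcongr
          _ = T * (lam * (Z.card : ℝ) / β) := by ring
      have h6 : 0 ≤ lam * (Z.card : ℝ) := by positivity
      linarith
  obtain ⟨U, h1, h2⟩ := hfin
  exact ⟨U, h1, h2⟩

end Pool.Agent.U689.NL
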